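import Pool.Agent.H37.CNP.Stmts

/-!
# Denominators of conductors, board `cnp`, row PSA
-/

set_option autoImplicit false

namespace Pool.CND

open Finset Matrix

section Res

variable {k L : Type} [Field k] [Field L] [Algebra k L] (P : Place k L)

/-- `c` is the residue of `z` -/
private def Rs (z : L) (c : k) : Prop := P.Ge (z - algebraMap k L c) 1

variable {P}

private theorem Rs.ge {z : L} {c : k} (h : Rs P z c) : P.Ge z 0 := by
  have h1 := P.ge_add (P.ge_mono h (by norm_num : (0 : ℤ) ≤ 1)) (P.ge_const c)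
  rw [sub_add_cancel] at h1
  exact h1

private theorem Rs.add {z z' : L} {c c' : k} (h : Rs P z c) (h' : Rs P z' c') :
    Rs P (z + z') (c + c') := by
  have h1 := P.ge_add h h'
  unfold Rs
  rw [map_add]
  have e : z + z' - (algebraMap k L c + algebraMap k L c') =
      z - algebraMap k L c + (z' - algebraMap k L c') := by ring
  rw [e]
  exact h1

private theorem Rs.mul {z z' : L} {c c' : k} (h : Rs P z c) (h' : Rs P z' c') :
    Rs P (z * z') (c * c') := by
  have h1 := P.ge_mul h h'.ge
  have h2 := P.ge_mul (P.ge_const c) h'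
  unfold Rs
  rw [map_mul]
  have e : z * z' - algebraMap k L c * algebraMap k L c' =
      (z - algebraMap k L c) * z' + algebraMap k L c * (z' - algebraMap k L c') := by ring
  rw [e]
  rw [add_zero] at h1
  rw [zero_add] at h2
  exact P.ge_add h1 h2

private theorem Rs.const (c : k) : Rs P (algebraMap k L c) c := by
  unfold Rs
  rw [sub_self]
  exact P.ge_zero 1

private theorem Rs.one : Rs P (1 : L) 1 := by
  have h := Rs.const (P := P) 1
  rw [map_one] at h
  exact h

private theorem Rs.neg {z : L} {c : k} (h : Rs P z c) : Rs P (-z) (-c) := by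
  have h1 := (Rs.const (P := P) (-1 : k)).mul h
  rw [map_neg, map_one] at h1
  have e1 : (-1 : L) * z = -z := by ring
  have e2 : (-1 : k) * c = -c := by ring
  rw [e1, e2] at h1
  exact h1

private theorem Rs.sub {z z' : L} {c c' : k} (h : Rs P z c) (h' : Rs P z' c') :
    Rs P (z - z') (c - c') := by
  rw [sub_eq_add_neg, sub_eq_add_neg]
  exact h.add h'.neg

private theorem Rs.pow {z : L} {c : k} (h : Rs P z c) (n : ℕ) : Rs P (z ^ n) (c ^ n) := by
  induction n with
  | zero =>
    rw [pow_zero, pow_zero]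
    exact Rs.one
  | succ n ih =>
    rw [pow_succ, pow_succ]
    exact ih.mul h

private theorem Rs.uniq {z : L} {c c' : k} (h : Rs P z c) (h' : Rs P z c') : c = c' := by
  by_contra hne
  have h1 := P.ge_sub h' h
  have e : z - algebraMap k L c' - (z - algebraMap k L c) = algebraMap k L (c - c') := by
    rw [map_sub]
    ring
  rw [e] at h1
  have h2 : c - c' ≠ 0 := sub_ne_zero.2 hne
  have h3 : algebraMap k L (c - c') ≠ 0 := by
    rw [Ne, map_eq_zero]
    exact h2
  have h4 := (P.ge_iff h3 1).1 h1
  rw [P.ord_const _ h2] at h4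
  omega

private theorem Rs.ex {z : L} (h : P.Ge z 0) : ∃ c : k, Rs P z c := by
  rcases h with h | h
  · refine ⟨0, ?_⟩
    rw [h]
    have h1 := Rs.const (P := P) (0 : k)
    rw [map_zero] at h1
    exact h1
  · by_cases hz : z = 0
    · refine ⟨0, ?_⟩
      rw [hz]
      have h1 := Rs.const (P := P) (0 : k)
      rw [map_zero] at h1
      exact h1
    · obtain ⟨c, hc | hc⟩ := P.residue z hz h
      · refine ⟨c, ?_⟩
        rw [hc]
        exact Rs.const c
      · exact ⟨c, Or.inr (by omega)⟩

private theorem Rs.fix {z : L} {c : k} (h : Rs P z c) {g : L ≃ₐ[k] L} (hg : Fixes P g) :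
    Rs P (g z) c := by
  have h1 := hg.ge h
  rw [map_sub, AlgEquiv.commutes] at h1
  exact h1

end Res

/-- a matrix which fixes `(a, b)` up to signs is in the centre -/
private theorem psa_key {F K : Type} [Field F] [Field K] (φ : F →+* K) (p f q : ℕ)
    (hp : p.Prime) (hcp : CharP K p) (hf : 1 ≤ f) (hq : q = p ^ f) (hF : Nat.card F = q) (a b : K)
    (hab : a * b ^ q - a ^ q * b = 1) (g : SL F)
    (h1 : (φ (g.1 0 0) * a + φ (g.1 1 0) * b) ^ 2 = a ^ 2)
    (h2 : (φ (g.1 0 1) * a + φ (g.1 1 1) * b) ^ 2 = b ^ 2) : g ∈ Subgroup.center (SL F) := by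
  have hq2 : 2 ≤ q := by
    rw [hq]
    exact le_trans hp.two_le (Nat.le_self_pow (by omega) p)
  have hfin : Finite F := Nat.finite_of_card_ne_zero (by omega)
  have hpf : Fact p.Prime := ⟨hp⟩
  have hpow : ∀ c : F, φ c ^ q = φ c := by
    intro c
    letI : Fintype F := Fintype.ofFinite F
    have h3 := FiniteField.pow_card c
    rw [← Nat.card_eq_fintype_card, hF] at h3
    rw [← map_pow, h3]
  have hind : ∀ l l' : F, φ l * a + φ l' * b = 0 → l = 0 ∧ l' = 0 := by
    intro l l' h
    have h3 : φ l * a ^ q + φ l' * b ^ q = 0 := by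
      have h4 : (φ l * a + φ l' * b) ^ q = 0 := by
        rw [h, zero_pow (by omega)]
      rw [hq, add_pow_char_pow, ← hq, mul_pow, mul_pow, hpow, hpow] at h4
      exact h4
    have h5 : φ l = 0 := by
      have h6 : φ l = φ l * (a * b ^ q - a ^ q * b) := by rw [hab, mul_one]
      rw [h6]
      linear_combination b ^ q * h - b * h3
    have h7 : φ l' = 0 := by
      have h6 : φ l' = φ l' * (a * b ^ q - a ^ q * b) := by rw [hab, mul_one]
      rw [h6]
      linear_combination a * h3 - a ^ q * h
    exact ⟨(map_eq_zero φ).1 h5, (map_eq_zero φ).1 h7⟩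
  have g1 : g.1 1 0 = 0 ∧ g.1 0 0 ^ 2 = 1 := by
    rcases sq_eq_sq_iff_eq_or_eq_neg.1 h1 with h | h
    · have h3 : φ (g.1 0 0 - 1) * a + φ (g.1 1 0) * b = 0 := by
        rw [map_sub, map_one]
        linear_combination h
      obtain ⟨h4, h5⟩ := hind _ _ h3
      refine ⟨h5, ?_⟩
      rw [sub_eq_zero.1 h4, one_pow]
    · have h3 : φ (g.1 0 0 + 1) * a + φ (g.1 1 0) * b = 0 := by
        rw [map_add, map_one]
        linear_combination h
      obtain ⟨h4, h5⟩ := hind _ _ h3
      refine ⟨h5, ?_⟩
      rw [eq_neg_of_add_eq_zero_left h4]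
      ring
  have g2 : g.1 0 1 = 0 := by
    rcases sq_eq_sq_iff_eq_or_eq_neg.1 h2 with h | h
    · have h3 : φ (g.1 0 1) * a + φ (g.1 1 1 - 1) * b = 0 := by
        rw [map_sub, map_one]
        linear_combination h
      exact (hind _ _ h3).1
    · have h3 : φ (g.1 0 1) * a + φ (g.1 1 1 + 1) * b = 0 := by
        rw [map_add, map_one]
        linear_combination h
      exact (hind _ _ h3).1
  have hdet : g.1 0 0 * g.1 1 1 = 1 := by
    have h3 : g.1.det = 1 := g.2
    rw [Matrix.det_fin_two, g2, zero_mul, sub_zero] at h3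
    exact h3
  have g3 : g.1 1 1 = g.1 0 0 := by
    have h3 : g.1 0 0 ≠ 0 := by
      intro h
      rw [h, zero_mul] at hdet
      exact zero_ne_one hdet
    have h4 : g.1 0 0 * g.1 1 1 = g.1 0 0 * g.1 0 0 := by
      rw [hdet, ← sq, g1.2]
    exact mul_left_cancel₀ h3 h4
  rw [Matrix.SpecialLinearGroup.mem_center_iff]
  refine ⟨g.1 0 0, ?_, ?_⟩
  · rw [Fintype.card_fin]
    exact g1.2
  · ext i j
    fin_cases i <;> fin_cases j
    · rfl
    · exact g2.symm
    · exact g1.1.symm
    · exact g3.symm

private theorem center_act {F : Type} [Field F] (g : SL F) (hg : g ∈ Subgroup.center (SL F)) :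
    g.1 0 1 = 0 ∧ g.1 1 0 = 0 ∧ g.1 0 0 ^ 2 = 1 ∧ g.1 1 1 = g.1 0 0 := by
  rw [Matrix.SpecialLinearGroup.mem_center_iff] at hg
  obtain ⟨r, hr, he⟩ := hg
  rw [Fintype.card_fin] at hr
  have e : ∀ i j, g.1 i j = Matrix.scalar (Fin 2) r i j := fun i j => by rw [he]
  refine ⟨?_, ?_, ?_, ?_⟩
  · rw [e]
    rfl
  · rw [e]
    rfl
  · rw [e]
    exact hr
  · rw [e, e]
    rfl

section Fld

variable {k L G : Type} [Field k] [Field L] [Algebra k L] [Group G]

/-- the fixed field of a subgroup -/
private def fxd (ρ : G →* (L ≃ₐ[k] L)) (N : Subgroup G) : IntermediateField k L where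
  carrier := {z | ∀ g ∈ N, ρ g z = z}
  mul_mem' := by
    intro a b ha hb g hg
    rw [map_mul, ha g hg, hb g hg]
  one_mem' := by
    intro g _
    exact map_one _
  add_mem' := by
    intro a b ha hb g hg
    rw [map_add, ha g hg, hb g hg]
  zero_mem' := by
    intro g _
    exact map_zero _
  algebraMap_mem' := by
    intro c g _
    exact AlgEquiv.commutes _ c
  inv_mem' := by
    intro a ha g hg
    rw [map_inv₀, ha g hg]

private theorem fxd_stab (ρ : G →* (L ≃ₐ[k] L)) (N : Subgroup G) [N.Normal] (g : G) {z : L}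
    (hz : z ∈ fxd ρ N) : ρ g z ∈ fxd ρ N := by
  intro n hn
  have h1 : g⁻¹ * n * g ∈ N := by
    have h2 := Subgroup.Normal.conj_mem (inferInstance : N.Normal) n hn g⁻¹
    rw [inv_inv] at h2
    exact h2
  have h3 := hz _ h1
  have h4 : ρ n (ρ g z) = ρ g (ρ (g⁻¹ * n * g) z) := by
    rw [← AlgEquiv.mul_apply, ← AlgEquiv.mul_apply, ← map_mul, ← map_mul]
    have e : n * g = g * (g⁻¹ * n * g) := by group
    rw [← e]
  rw [h4, h3]

/-- the action on the fixed field -/
private def fxa (ρ : G →* (L ≃ₐ[k] L)) (N : Subgroup G) [N.Normal] :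
    G →* (fxd ρ N ≃ₐ[k] fxd ρ N) :=
  MonoidHom.mk' (fun g =>
    { toFun := fun z => ⟨ρ g z, fxd_stab ρ N g z.2⟩
      invFun := fun z => ⟨ρ g⁻¹ z, fxd_stab ρ N g⁻¹ z.2⟩
      left_inv := fun z => by
        refine Subtype.ext ?_
        change ρ g⁻¹ (ρ g z) = z
        rw [← AlgEquiv.mul_apply, ← map_mul, inv_mul_cancel, map_one, AlgEquiv.one_apply]
      right_inv := fun z => by
        refine Subtype.ext ?_
        change ρ g (ρ g⁻¹ z) = z
        rw [← AlgEquiv.mul_apply, ← map_mul, mul_inv_cancel, map_one, AlgEquiv.one_apply]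
      map_mul' := fun a b => Subtype.ext (map_mul (ρ g) (a : L) b)
      map_add' := fun a b => Subtype.ext (map_add (ρ g) (a : L) b)
      commutes' := fun c => Subtype.ext (AlgEquiv.commutes (ρ g) c) })
    (fun g g' => by
      ext z
      change ρ (g * g') z = ρ g (ρ g' z)
      rw [map_mul, AlgEquiv.mul_apply])

private theorem adj_fix {s : L} (σ : L ≃ₐ[k] L) (hs : σ s = s) {z : L}
    (hz : z ∈ IntermediateField.adjoin k {s}) : σ z = z := by
  induction hz using IntermediateField.adjoin_induction with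
  | mem x hx =>
    rw [Set.mem_singleton_iff.1 hx]
    exact hs
  | algebraMap c => exact AlgEquiv.commutes σ c
  | add x y _ _ hx hy => rw [map_add, hx, hy]
  | inv x _ hx => rw [map_inv₀, hx]
  | mul x y _ _ hx hy => rw [map_mul, hx, hy]

end Fld

theorem psa_thm : S_PSA := by
  intro p k F L _ _ _ _ _ _ f q m s x y ρ P hp hcp hp2 hf hq hF hm hco hSl
  have hpf : Fact p.Prime := ⟨hp⟩
  have hq2 : 2 ≤ q := by
    rw [hq]
    exact le_trans hp.two_le (Nat.le_self_pow (by omega) p)
  have hodd : Odd q := by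
    rw [hq]
    exact (hp.odd_of_ne_two hp2).pow
  obtain ⟨M, hM⟩ := hodd
  have hM1 : 1 ≤ M := by omega
  have hcpL : CharP L p := charP_of_injective_algebraMap (algebraMap k L).injective p
  set E := fxd ρ (Subgroup.center (SL F)) with hE
  have hker : Subgroup.center (SL F) ≤ (fxa ρ (Subgroup.center (SL F))).ker := by
    intro g hg
    rw [MonoidHom.mem_ker]
    ext z
    exact z.2 g hg
  set ρ' : PS F →* (E ≃ₐ[k] E) :=
    QuotientGroup.lift (Subgroup.center (SL F)) (fxa ρ (Subgroup.center (SL F)))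
      (fun g hg => hker hg) with hρ'
  have hact : ∀ (g : SL F) (z : E), ((ρ' (g : PS F) z : E) : L) = ρ g z := fun g z => rfl
  -- the elements
  have hcx : ∀ g ∈ Subgroup.center (SL F), ρ g x = cst k F L (g.1 0 0) * x := by
    intro g hg
    rw [hSl.act_x, (center_act g hg).2.1]
    simp
  have hcy : ∀ g ∈ Subgroup.center (SL F), ρ g y = cst k F L (g.1 0 0) * y := by
    intro g hg
    rw [hSl.act_y, (center_act g hg).1, (center_act g hg).2.2.2]
    simp
  have hc2 : ∀ g ∈ Subgroup.center (SL F),
      cst k F L (g.1 0 0) * cst k F L (g.1 0 0) = 1 := by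
    intro g hg
    have h := (center_act g hg).2.2.1
    rw [← map_mul, ← map_mul, ← sq, h, map_one, map_one]
  have hu : x * x ∈ E := by
    intro g hg
    rw [map_mul, hcx g hg]
    linear_combination (x * x) * hc2 g hg
  have hv : x * y ∈ E := by
    intro g hg
    rw [map_mul, hcx g hg, hcy g hg]
    linear_combination (x * y) * hc2 g hg
  have hw : y * y ∈ E := by
    intro g hg
    rw [map_mul, hcy g hg]
    linear_combination (y * y) * hc2 g hg
  have hs : s ∈ E := fun g _ => hSl.act_s g
  have hpowq : ∀ n : ℕ, ∀ z : L, z ^ (2 * n + 1) = (z * z) ^ n * z := by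
    intro n z
    rw [pow_succ, pow_mul, sq]
  refine ⟨E, ρ', ⟨s, hs⟩, fun z => Iff.rfl, rfl, hact, ?_, ?_, ?_, ?_⟩
  · -- injectivity
    rw [injective_iff_map_eq_one]
    intro g hg
    obtain ⟨g, rfl⟩ := QuotientGroup.mk_surjective g
    rw [QuotientGroup.eq_one_iff]
    have h1 : ∀ z : E, ρ g (z : L) = z := by
      intro z
      rw [← hact, hg, AlgEquiv.one_apply]
    have h2 := h1 ⟨x * x, hu⟩
    have h3 := h1 ⟨y * y, hw⟩
    simp only [map_mul, hSl.act_x] at h2
    simp only [map_mul, hSl.act_y] at h3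
    refine psa_key ((algebraMap k L).comp (algebraMap F k)) p f q hp hcpL hf hq hF x y hSl.eq_xy
      g ?_ ?_
    · rw [sq, sq]
      exact h2
    · rw [sq, sq]
      exact h3
  · -- transcendence
    intro h
    exact hSl.tr (h.algHom E.val)
  · -- fixed field
    intro z
    constructor
    · intro h
      have h1 : (z : L) ∈ IntermediateField.adjoin k {s} := by
        refine hSl.fixed z fun g => ?_
        rw [← hact, h]
      have h2 : IntermediateField.adjoin k {s} =
          (IntermediateField.adjoin k {(⟨s, hs⟩ : E)}).map E.val := by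
        rw [IntermediateField.adjoin_map, Set.image_singleton]
        rfl
      rw [h2] at h1
      obtain ⟨z', hz', he⟩ := h1
      have h3 : z' = z := Subtype.ext he
      rw [← h3]
      exact hz'
    · intro h g
      obtain ⟨g, rfl⟩ := QuotientGroup.mk_surjective g
      refine adj_fix (ρ' (g : PS F)) ?_ h
      refine Subtype.ext ?_
      rw [hact]
      exact hSl.act_s g
  · -- unramified
    intro Q hQ g hg
    obtain ⟨g, rfl⟩ := QuotientGroup.mk_surjective g
    rw [QuotientGroup.eq_one_iff]
    set u : E := ⟨x * x, hu⟩ with hud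
    set v : E := ⟨x * y, hv⟩ with hvd
    set w : E := ⟨y * y, hw⟩ with hwd
    set t : E := ⟨s, hs⟩ with htd
    have ht0 : t ≠ 0 := fun h => hSl.s_ne (congrArg Subtype.val h)
    have hv0 : v ≠ 0 := fun h => mul_ne_zero hSl.x_ne hSl.y_ne (congrArg Subtype.val h)
    -- finiteness
    have hfin : ∀ (r : L) (hr : r * r ∈ E), r ≠ 0 → r ^ (q ^ 2) + r = s ^ m * r ^ q →
        Q.Ge (⟨r * r, hr⟩ : E) 0 := by
      intro r hr hr0 hre
      set R : E := ⟨r * r, hr⟩ with hR
      have hR0 : R ≠ 0 := fun h => mul_ne_zero hr0 hr0 (congrArg Subtype.val h)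
      by_contra hcon
      obtain ⟨_, h2⟩ := (Place.not_ge Q).1 hcon
      have e1 : q ^ 2 = 2 * (2 * M * (M + 1)) + 1 := by
        rw [hM]
        ring
      have e2 : R ^ (2 * M * (M + 1)) = t ^ m * R ^ M - 1 := by
        refine Subtype.ext ?_
        change (r * r) ^ (2 * M * (M + 1)) = s ^ m * (r * r) ^ M - 1
        rw [e1, hM, hpowq, hpowq] at hre
        refine mul_right_cancel₀ hr0 ?_
        linear_combination hre
      have h3 : Q.Ge (t ^ m * R ^ M - 1) (M * Q.ord R) := by
        refine Q.ge_sub ?_ ?_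
        · rw [Q.ge_iff (mul_ne_zero (pow_ne_zero _ ht0) (pow_ne_zero _ hR0)),
            Q.ord_mul _ _ (pow_ne_zero _ ht0) (pow_ne_zero _ hR0), Q.ord_pow ht0, Q.ord_pow hR0]
          have : (0 : ℤ) ≤ m * Q.ord t := by positivity
          omega
        · rw [Q.ge_iff one_ne_zero, Q.ord_one]
          have h4 : (0 : ℤ) ≤ M * (-Q.ord R) := mul_nonneg (by omega) (by omega)
          linarith
      rw [← e2, Q.ge_iff (pow_ne_zero _ hR0), Q.ord_pow hR0] at h3
      have h5 : ((M : ℤ)) < ((2 * M * (M + 1) : ℕ) : ℤ) := by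
        have : M < 2 * M * (M + 1) := by nlinarith
        exact_mod_cast this
      have h6 := mul_lt_mul_of_neg_right h5 h2
      omega
    have hgu : Q.Ge u 0 := hfin x hu hSl.x_ne hSl.eq_x
    have hgw : Q.Ge w 0 := hfin y hw hSl.y_ne hSl.eq_y
    have hvv : v * v = u * w := Subtype.ext (by
      change x * y * (x * y) = x * x * (y * y)
      ring)
    have hgv : Q.Ge v 0 := by
      have h1 := Q.ge_mul hgu hgw
      rw [← hvv, Q.ge_iff (mul_ne_zero hv0 hv0), Q.ord_mul _ _ hv0 hv0] at h1
      rw [Q.ge_iff hv0]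
      omega
    obtain ⟨cu, hcu⟩ := Rs.ex hgu
    obtain ⟨cv, hcv⟩ := Rs.ex hgv
    obtain ⟨cw, hcw⟩ := Rs.ex hgw
    have hc : cv * cv = cu * cw := by
      have h1 := hcv.mul hcv
      rw [hvv] at h1
      exact h1.uniq (hcu.mul hcw)
    have hrel : cv * (cw ^ M - cu ^ M) = 1 := by
      have h1 := hcv.mul ((hcw.pow M).sub (hcu.pow M))
      have h2 : v * (w ^ M - u ^ M) = 1 := by
        refine Subtype.ext ?_
        change x * y * ((y * y) ^ M - (x * x) ^ M) = 1
        have h3 := hSl.eq_xy
        rw [hM, hpowq, hpowq] at h3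
        linear_combination h3
      rw [h2] at h1
      exact h1.uniq Rs.one
    obtain ⟨a, b, ha, hb, hab⟩ : ∃ a b : k, a * a = cu ∧ b * b = cw ∧ a * b = cv := by
      obtain ⟨a, ha⟩ := IsAlgClosed.exists_eq_mul_self cu
      obtain ⟨b, hb⟩ := IsAlgClosed.exists_eq_mul_self cw
      have h1 : (a * b) * (a * b) = cv * cv := by
        rw [hc, ha, hb]
        ring
      rcases mul_self_eq_mul_self_iff.1 h1 with h | h
      · exact ⟨a, b, ha.symm, hb.symm, h⟩
      · refine ⟨a, -b, ha.symm, ?_, ?_⟩
        · rw [hb]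
          ring
        · rw [mul_neg, h, neg_neg]
    have hab1 : a * b ^ q - a ^ q * b = 1 := by
      rw [← hrel, ← ha, ← hb, ← hab, hM, pow_succ, pow_succ, pow_mul, pow_mul, sq, sq]
      ring
    have hgx : ∀ α γ : F, Rs Q (algebraMap k E (algebraMap F k α) *
        algebraMap k E (algebraMap F k α) * u +
        (algebraMap k E (algebraMap F k α) * algebraMap k E (algebraMap F k γ) * v +
          algebraMap k E (algebraMap F k α) * algebraMap k E (algebraMap F k γ) * v) +
        algebraMap k E (algebraMap F k γ) * algebraMap k E (algebraMap F k γ) * w)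
        ((algebraMap F k α * a + algebraMap F k γ * b) ^ 2) := by
      intro α γ
      have hα := Rs.const (P := Q) (algebraMap F k α)
      have hγ := Rs.const (P := Q) (algebraMap F k γ)
      have h1 := (((hα.mul hα).mul hcu).add (((hα.mul hγ).mul hcv).add ((hα.mul hγ).mul hcv))).add
        ((hγ.mul hγ).mul hcw)
      rw [← ha, ← hb, ← hab] at h1
      have e : (algebraMap F k α * a + algebraMap F k γ * b) ^ 2 =
          algebraMap F k α * algebraMap F k α * (a * a) +
          (algebraMap F k α * algebraMap F k γ * (a * b) +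
            algebraMap F k α * algebraMap F k γ * (a * b)) +
          algebraMap F k γ * algebraMap F k γ * (b * b) := by ring
      rw [e]
      exact h1
    refine psa_key (algebraMap F k) p f q hp hcp hf hq hF a b hab1 g ?_ ?_
    · have h1 := hcu.fix hg
      have h2 : ρ' (g : PS F) u = algebraMap k E (algebraMap F k (g.1 0 0)) *
          algebraMap k E (algebraMap F k (g.1 0 0)) * u +
          (algebraMap k E (algebraMap F k (g.1 0 0)) * algebraMap k E (algebraMap F k (g.1 1 0)) * v +
            algebraMap k E (algebraMap F k (g.1 0 0)) *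
              algebraMap k E (algebraMap F k (g.1 1 0)) * v) +
          algebraMap k E (algebraMap F k (g.1 1 0)) *
            algebraMap k E (algebraMap F k (g.1 1 0)) * w := by
        refine Subtype.ext ?_
        rw [hact]
        change ρ g (x * x) = cst k F L (g.1 0 0) * cst k F L (g.1 0 0) * (x * x) +
          (cst k F L (g.1 0 0) * cst k F L (g.1 1 0) * (x * y) +
            cst k F L (g.1 0 0) * cst k F L (g.1 1 0) * (x * y)) +
          cst k F L (g.1 1 0) * cst k F L (g.1 1 0) * (y * y)
        rw [map_mul, hSl.act_x]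
        ring
      rw [h2] at h1
      rw [(hgx _ _).uniq h1, ← ha, sq]
    · have h1 := hcw.fix hg
      have h2 : ρ' (g : PS F) w = algebraMap k E (algebraMap F k (g.1 0 1)) *
          algebraMap k E (algebraMap F k (g.1 0 1)) * u +
          (algebraMap k E (algebraMap F k (g.1 0 1)) * algebraMap k E (algebraMap F k (g.1 1 1)) * v +
            algebraMap k E (algebraMap F k (g.1 0 1)) *
              algebraMap k E (algebraMap F k (g.1 1 1)) * v) +
          algebraMap k E (algebraMap F k (g.1 1 1)) *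
            algebraMap k E (algebraMap F k (g.1 1 1)) * w := by
        refine Subtype.ext ?_
        rw [hact]
        change ρ g (y * y) = cst k F L (g.1 0 1) * cst k F L (g.1 0 1) * (x * x) +
          (cst k F L (g.1 0 1) * cst k F L (g.1 1 1) * (x * y) +
            cst k F L (g.1 0 1) * cst k F L (g.1 1 1) * (x * y)) +
          cst k F L (g.1 1 1) * cst k F L (g.1 1 1) * (y * y)
        rw [map_mul, hSl.act_y]
        ring
      rw [h2] at h1
      rw [(hgx _ _).uniq h1, ← hb, sq]

end Pool.CND
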