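import Pool.Agent.H37.CNP.Stmts
import Pool.Agent.H2.CND.CNG

/-!
# Denominators of conductors, board `cnp`, row PSO
-/

set_option autoImplicit false

namespace Pool.CND

open Finset Matrix

private theorem pso_bot {F : Type} [Field F] (h2 : (2 : F) = 0) :
    Subgroup.center (SL F) = ⊥ := by
  rw [eq_bot_iff]
  intro g hg
  rw [Matrix.SpecialLinearGroup.mem_center_iff] at hg
  obtain ⟨r, hr, he⟩ := hg
  rw [Fintype.card_fin] at hr
  have hr1 : r = 1 := by
    have h3 : (r - 1) ^ 2 = 0 := by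
      linear_combination hr - (r - 1) * h2
    exact sub_eq_zero.1 (pow_eq_zero_iff two_ne_zero |>.1 h3)
  rw [Subgroup.mem_bot]
  refine Subtype.ext ?_
  rw [← he, hr1, map_one]
  rfl

theorem pso_thm (hSLE : S_SLE) (hPSA : S_PSA) (hPSB : S_PSB) (hSLO : S_SLO) : S_PSO := by
  intro p k F _ _ _ _ f q m hp hcp hf hq hF hm hco
  by_cases hp2 : p = 2
  · have h1 : (2 : F) = 0 := by
      refine (algebraMap F k).injective ?_
      rw [map_ofNat, map_zero]
      have h2 : ((p : ℕ) : k) = 0 := CharP.cast_eq_zero k p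
      rw [hp2] at h2
      exact_mod_cast h2
    have e : SL F ≃* PS F := by
      refine (QuotientGroup.quotientBot (G := SL F)).symm.trans ?_
      exact QuotientGroup.quotientMulEquivOfEq (pso_bot h1).symm
    exact cond_mono k (SL F) (PS F) e (hSLO p k F f q m hp hcp hf hq hF hm hco)
  · obtain ⟨L, _, _, s, x, y, ρ, P, hSl⟩ := hSLE p k F f q m hp hcp hf hq hF hm hco
    obtain ⟨E, ρ', t, hE, ht, hact, hcov⟩ :=
      hPSA p k F L f q m s x y ρ P hp hcp hp2 hf hq hF hm hco hSl
    obtain ⟨Q, hQ, hcon⟩ :=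
      hPSB p k F L f q m s x y ρ P hp hcp hp2 hf hq hF hm hco hSl E ρ' hE hact
    have hq2 : 2 ≤ q := by
      rw [hq]
      exact le_trans hp.two_le (Nat.le_self_pow (by omega) p)
    refine ⟨E, inferInstance, inferInstance, ρ', t, hcov, Q, ?_, hcon⟩
    have ht0 : t ≠ 0 := by
      intro h
      apply hSl.s_ne
      rw [← ht, h]
      rfl
    have h1 := hQ t ht0
    rw [ht, hSl.ord_s] at h1
    have h2 : 0 < q * (q - 1) := Nat.mul_pos (by omega) (by omega)
    omega

end Pool.CND
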