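import Pool.Agent.H37.CNP.Stmts

/-!
# Denominators of conductors, board `cnp`, row PSR
-/

set_option autoImplicit false

namespace Pool.CND

open Finset Matrix

private theorem psr_emb (p : ℕ) (k F : Type) [Field k] [IsAlgClosed k] [Field F] (f q : ℕ)
    (hp : p.Prime) (hcp : CharP k p) (hf : 1 ≤ f) (hq : q = p ^ f) (hF : Nat.card F = q) :
    Nonempty (F →+* k) := by
  have hq2 : 2 ≤ q := by
    rw [hq]
    exact le_trans hp.two_le (Nat.le_self_pow (by omega) p)
  haveI : Finite F := Nat.finite_of_card_ne_zero (by omega)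
  haveI : Fintype F := Fintype.ofFinite F
  haveI : Fact p.Prime := ⟨hp⟩
  obtain ⟨r, hr⟩ := CharP.exists F
  obtain ⟨n, hrp, hn⟩ := FiniteField.card F r
  have hrp2 : r = p := by
    rw [← Nat.card_eq_fintype_card, hF, hq] at hn
    have h1 : r ∣ p ^ f := by
      rw [hn]
      exact dvd_pow_self r n.ne_zero
    exact (Nat.prime_dvd_prime_iff_eq hrp hp).1 (hrp.dvd_of_dvd_pow h1)
  haveI : CharP F p := by rw [← hrp2]; exact hr
  letI : Algebra (ZMod p) F := ZMod.algebra F p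
  letI : Algebra (ZMod p) k := ZMod.algebra k p
  exact ⟨(IsAlgClosed.lift (R := ZMod p) (S := F) (M := k)).toRingHom⟩

theorem psr_thm (hPSO : S_PSO) (hPSU : S_PSU) (hNGL : S_NGL) : S_PSR := by
  intro p k F _ _ _ f q hp hcp hf hq hF
  have hq2 : 2 ≤ q := by
    rw [hq]
    exact le_trans hp.two_le (Nat.le_self_pow (by omega) p)
  obtain ⟨φ⟩ := psr_emb p k F f q hp hcp hf hq hF
  letI : Algebra F k := φ.toAlgebra
  have hd : Nat.gcd 2 (q - 1) ∣ q - 1 := Nat.gcd_dvd_right 2 (q - 1)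
  have hpos : 1 ≤ (q - 1) / Nat.gcd 2 (q - 1) :=
    Nat.div_pos (Nat.le_of_dvd (by omega) hd) (Nat.gcd_pos_of_pos_left _ (by norm_num))
  refine hNGL k (PS F) _ hpos (hPSU p k F f q hp hcp hf hq hF) ?_
  intro N _ hdv
  have hm : ∀ j : ℕ, Nat.Coprime (j * (p * (q - 1)) + 1) (p * (q - 1)) := by
    intro j
    rw [Nat.coprime_mul_right_add_left]
    exact Nat.coprime_one_left _
  refine Set.infinite_of_injective_forall_mem
    (f := fun j : ℕ => (((j * (p * (q - 1)) + 1 : ℕ) * (q + 1) : ℚ) / (q - 1 : ℕ))) ?_ ?_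
  · intro i j hij
    have e1 : ((q - 1 : ℕ) : ℚ) ≠ 0 := by
      rw [Nat.cast_ne_zero]
      omega
    have e2 : ((q : ℚ) + 1) ≠ 0 := by positivity
    have h1 := (div_left_inj' e1).1 hij
    have h2 := mul_right_cancel₀ e2 h1
    have h3 : i * (p * (q - 1)) + 1 = j * (p * (q - 1)) + 1 := by exact_mod_cast h2
    have h4 : 0 < p * (q - 1) := Nat.mul_pos hp.pos (by omega)
    exact Nat.eq_of_mul_eq_mul_right h4 (by omega)
  · intro j
    refine ⟨hPSO p k F f q _ hp hcp hf hq hF (Nat.succ_pos _) (hm j), ?_⟩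
    rintro ⟨z, hz⟩
    apply hdv
    set m := j * (p * (q - 1)) + 1 with hmd
    have e1 : ((q - 1 : ℕ) : ℚ) ≠ 0 := by
      rw [Nat.cast_ne_zero]
      omega
    have h1 : ((N * (m * (q + 1)) : ℕ) : ℤ) = z * ((q - 1 : ℕ) : ℤ) := by
      have h2 : (N : ℚ) * (m * (q + 1)) = z * ((q - 1 : ℕ) : ℚ) := by
        rw [← hz, mul_assoc, div_mul_cancel₀ _ e1]
      exact_mod_cast h2
    have h3 : q - 1 ∣ N * (m * (q + 1)) := by
      have h4 : ((q - 1 : ℕ) : ℤ) ∣ ((N * (m * (q + 1)) : ℕ) : ℤ) := ⟨z, by rw [h1]; ring⟩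
      exact_mod_cast h4
    have h5 : Nat.Coprime (q - 1) m := (Nat.Coprime.coprime_mul_left_right (hm j)).symm
    have h6 : q - 1 ∣ N * (q + 1) := by
      have h7 : N * (m * (q + 1)) = m * (N * (q + 1)) := by ring
      rw [h7] at h3
      exact h5.dvd_of_dvd_mul_left h3
    have h8 : q - 1 ∣ 2 * N := by
      have h9 : N * (q + 1) = N * (q - 1) + 2 * N := by
        obtain ⟨t, rfl⟩ : ∃ t, q = t + 2 := ⟨q - 2, by omega⟩
        have : t + 2 - 1 = t + 1 := by omega
        rw [this]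
        ring
      rw [h9] at h6
      exact (Nat.dvd_add_right (Dvd.intro_left N rfl)).1 h6
    rcases (Nat.dvd_prime Nat.prime_two).1 (Nat.gcd_dvd_left 2 (q - 1)) with e | e
    · rw [e, Nat.div_one]
      have h10 : Nat.Coprime (q - 1) 2 := by
        rw [Nat.coprime_comm]
        exact e
      exact h10.dvd_of_dvd_mul_left h8
    · rw [e]
      obtain ⟨t, ht⟩ : 2 ∣ q - 1 := by
        rw [← e]
        exact Nat.gcd_dvd_right 2 (q - 1)
      rw [ht] at h8 ⊢
      rw [Nat.mul_div_cancel_left t (by norm_num)]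
      exact Nat.dvd_of_mul_dvd_mul_left (by norm_num) h8

end Pool.CND
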