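import Pool.Agent.H37.CNP.Stmts

/-!
# Denominators of conductors, board `cnp`, row PSU
-/

set_option autoImplicit false

namespace Pool.CND

open Finset Matrix

theorem psu_thm (hUPG : S_UPG) (hPSW : S_PSW) : S_PSU := by
  intro p k F _ _ f q hp hcp hf hq hF c hc
  have hq2 : 2 ≤ q := by
    rw [hq]
    exact le_trans hp.two_le (Nat.le_self_pow (by omega) p)
  have hfin : Finite F := Nat.finite_of_card_ne_zero (by omega)
  rcases hUPG p k (PS F) hp hcp c hc with h0 | ⟨W, I, n, h1, h2, h3, h4, h5, h6, h7, _⟩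
  · exact ⟨0, by rw [h0, mul_zero, Int.cast_zero]⟩
  · obtain ⟨g1, r, g2⟩ := hPSW p F f q hp hf hq hF W I n h1 h2 h3 h4 h5 h6
    obtain ⟨z, hz⟩ := h7 g1
    refine ⟨r * z, ?_⟩
    rw [g2]
    push_cast
    rw [← hz]
    ring

end Pool.CND
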